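import Pool.Agent.Helper37.BP.Defs2
import Pool.Graph.R_seed8.BAPp.ILe

/-! Part ILT of MP_6f6997_an (case `p = ∞`). -/

open MeasureTheory
open scoped ENNReal NNReal

set_option maxSynthPendingDepth 3

namespace Pool.Agent.Helper77.BAP

open Pool.Agent.BAPp (sgn weakNorm gNorm FiniteRank)
open Pool.Agent.BAPp.ILe (dm dm_prob dm_ae)
open Pool.Agent.Helper37.BP

theorem iTop_le_diag (p : ℝ) (hp : 1 < p) [Fact (1 ≤ ENNReal.ofReal p)] {Y X Γ : Type}
    [Countable Γ] [NormedAddCommGroup Y] [NormedSpace ℝ Y] [NormedAddCommGroup X] [NormedSpace ℝ X]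
    (d : Γ → ℝ) (hd0 : ∀ g, 0 ≤ d g) (hd : Summable (fun g => d g ^ p))
    (hpos : 0 < ∑' g, d g ^ p)
    (η : Γ → (Y →L[ℝ] ℝ)) (hη : ∀ g, ‖η g‖ ≤ 1)
    (R : lp (fun _ : Γ => ℝ) (ENNReal.ofReal p) →L[ℝ] X) (hR : ‖R‖ ≤ 1)
    (T : Y →L[ℝ] X)
    (hT : ∀ (y : Y) (a : lp (fun _ : Γ => ℝ) (ENNReal.ofReal p)),
      (∀ g, (a : Γ → ℝ) g = d g * η g y) → T y = R a) :
    iTop T ≤ ENNReal.ofReal ((∑' g, d g ^ p) ^ (1 / p)) := by
  letI : MeasurableSpace Γ := ⊤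
  haveI : DiscreteMeasurableSpace Γ := ⟨fun _ => trivial⟩
  have hp0 : 0 < p := by linarith
  have hpp : (ENNReal.ofReal p).toReal = p := ENNReal.toReal_ofReal hp0.le
  set Z : ℝ := ∑' g, d g ^ p with hZ
  set w : Γ → ℝ := fun g => d g ^ p / Z with hw
  have hw0 : ∀ g, 0 ≤ w g := fun g => div_nonneg (Real.rpow_nonneg (hd0 g) p) hpos.le
  have hw1 : HasSum w 1 := by
    have := hd.hasSum.div_const Z
    rwa [← hZ, div_self hpos.ne'] at this
  have hwd : ∀ g, ¬ 0 < w g → d g = 0 := by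
    intro g hg
    have h1 : w g = 0 := le_antisymm (not_lt.1 hg) (hw0 g)
    have h2 : d g ^ p = 0 := by
      rw [hw] at h1
      simpa [hpos.ne'] using h1
    exact (Real.rpow_eq_zero (hd0 g) hp0.ne').1 h2
  haveI hprob : IsProbabilityMeasure (dm w) := dm_prob hw0 hw1
  -- the operator `A`
  have hbd : ∀ (y : Y) (g : Γ), ‖η g y‖ ≤ ‖y‖ := fun y g => by
    calc ‖η g y‖ ≤ ‖η g‖ * ‖y‖ := (η g).le_opNorm y
      _ ≤ 1 * ‖y‖ := by gcongr; exact hη g
      _ = ‖y‖ := one_mul _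
  have hAm : ∀ y : Y, MemLp (fun g => η g y) ∞ (dm w) := fun y =>
    memLp_top_of_bound (Measurable.of_discrete.aestronglyMeasurable) ‖y‖
      (Filter.Eventually.of_forall (hbd y))
  let A0 : Y →ₗ[ℝ] Lp ℝ ∞ (dm w) :=
    { toFun := fun y => (hAm y).toLp
      map_add' := fun y y' => by
        rw [← MemLp.toLp_add]
        congr 1
        funext g
        exact map_add _ _ _
      map_smul' := fun c y => by
        rw [RingHom.id_apply, ← MemLp.toLp_const_smul]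
        congr 1
        funext g
        exact map_smul _ _ _ }
  have hA0 : ∀ y, ‖A0 y‖ ≤ 1 * ‖y‖ := by
    intro y
    have h1 : ∀ᵐ g ∂(dm w), ‖(A0 y) g‖ ≤ ‖y‖ := by
      filter_upwards [(hAm y).coeFn_toLp] with g hg
      show ‖((hAm y).toLp : Γ → ℝ) g‖ ≤ ‖y‖
      rw [hg]
      exact hbd y g
    have h2 := Lp.norm_le_of_ae_bound (norm_nonneg y) h1
    simpa using h2
  let A : Y →L[ℝ] Lp ℝ ∞ (dm w) := A0.mkContinuous 1 hA0
  have hAn : ‖A‖ ≤ 1 := A0.mkContinuous_norm_le zero_le_one hA0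
  have hAy : ∀ y, ∀ g, 0 < w g → (A y) g = η g y := by
    intro y g hg
    have h3 : ∀ᵐ g ∂(dm w), (A y) g = η g y := (hAm y).coeFn_toLp
    exact dm_ae h3 hg
  -- the multiplication operator
  have hle : ∀ (f : Lp ℝ ∞ (dm w)) (g : Γ), 0 < w g → ‖f g‖ ≤ ‖f‖ := by
    intro f g hg
    have h1 : ∀ᵐ g ∂(dm w), ‖f g‖ ≤ ‖f‖ := by
      have h2 := ae_le_eLpNormEssSup (f := (f : Γ → ℝ)) (μ := dm w)
      filter_upwards [h2] with g hg
      have h3 : eLpNormEssSup (f : Γ → ℝ) (dm w) = eLpNorm f ∞ (dm w) :=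
        eLpNorm_exponent_top.symm
      rw [h3, ← Lp.enorm_def] at hg
      rw [← ofReal_norm, ← ofReal_norm] at hg
      exact (ENNReal.ofReal_le_ofReal_iff (norm_nonneg _)).1 hg
    exact dm_ae h1 hg
  have hkey : ∀ (f : Lp ℝ ∞ (dm w)) (g : Γ),
      ‖d g * f g‖ ^ p ≤ d g ^ p * ‖f‖ ^ p := by
    intro f g
    by_cases hg : 0 < w g
    · rw [norm_mul, Real.norm_eq_abs (d g), abs_of_nonneg (hd0 g),
        Real.mul_rpow (hd0 g) (norm_nonneg _)]
      exact mul_le_mul_of_nonneg_left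
        (Real.rpow_le_rpow (norm_nonneg _) (hle f g hg) hp0.le) (Real.rpow_nonneg (hd0 g) p)
    · rw [hwd g hg, zero_mul, norm_zero]
      rw [Real.zero_rpow hp0.ne', zero_mul]
  have hsum : ∀ f : Lp ℝ ∞ (dm w), Summable (fun g => ‖d g * f g‖ ^ p) := fun f =>
    Summable.of_nonneg_of_le (fun g => Real.rpow_nonneg (norm_nonneg _) p) (hkey f)
      (hd.mul_right _)
  have hMm : ∀ f : Lp ℝ ∞ (dm w),
      Memℓp (fun g => d g * f g) (ENNReal.ofReal p) := by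
    intro f
    apply memℓp_gen
    rw [hpp]
    exact hsum f
  let M0 : Lp ℝ ∞ (dm w) →ₗ[ℝ] lp (fun _ : Γ => ℝ) (ENNReal.ofReal p) :=
    { toFun := fun f => ⟨fun g => d g * f g, hMm f⟩
      map_add' := fun f f' => by
        apply lp.ext
        funext g
        show d g * (f + f') g = d g * f g + d g * f' g
        by_cases hg : 0 < w g
        · rw [dm_ae (Lp.coeFn_add f f') hg, Pi.add_apply, mul_add]
        · rw [hwd g hg]
          simp
      map_smul' := fun c f => by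
        apply lp.ext
        funext g
        show d g * (c • f) g = c * (d g * f g)
        by_cases hg : 0 < w g
        · rw [dm_ae (Lp.coeFn_smul c f) hg, Pi.smul_apply, smul_eq_mul]
          ring
        · rw [hwd g hg]
          simp }
  have hM0 : ∀ f, ‖M0 f‖ ≤ Z ^ (1 / p) * ‖f‖ := by
    intro f
    refine lp.norm_le_of_tsum_le (by rw [hpp]; exact hp0) (by positivity) ?_
    rw [hpp]
    have h1 : ∑' g, ‖(M0 f : Γ → ℝ) g‖ ^ p ≤ ∑' g, d g ^ p * ‖f‖ ^ p :=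
      Summable.tsum_le_tsum (hkey f) (hsum f) (hd.mul_right _)
    refine h1.trans ?_
    rw [tsum_mul_right, ← hZ, Real.mul_rpow (by positivity) (norm_nonneg _),
      ← Real.rpow_mul hpos.le, one_div, inv_mul_cancel₀ hp0.ne', Real.rpow_one]
  let M1 : Lp ℝ ∞ (dm w) →L[ℝ] lp (fun _ : Γ => ℝ) (ENNReal.ofReal p) :=
    M0.mkContinuous (Z ^ (1 / p)) hM0
  have hM1n : ‖M1‖ ≤ Z ^ (1 / p) := M0.mkContinuous_norm_le (by positivity) hM0
  let B : Lp ℝ ∞ (dm w) →L[ℝ] ((X →L[ℝ] ℝ) →L[ℝ] ℝ) :=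
    (NormedSpace.inclusionInDoubleDual ℝ X).comp (R.comp M1)
  have hBn : ‖B‖ ≤ Z ^ (1 / p) := by
    calc ‖B‖ ≤ ‖NormedSpace.inclusionInDoubleDual ℝ X‖ * ‖R.comp M1‖ :=
          ContinuousLinearMap.opNorm_comp_le _ _
      _ ≤ 1 * (‖R‖ * ‖M1‖) := by
          gcongr
          · exact NormedSpace.inclusionInDoubleDual_norm_le ℝ X
          · exact ContinuousLinearMap.opNorm_comp_le _ _
      _ ≤ 1 * (1 * Z ^ (1 / p)) := by gcongr
      _ = Z ^ (1 / p) := by ring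
  have hfac : ∀ (y : Y) (f : X →L[ℝ] ℝ), f (T y) = B (A y) f := by
    intro y f
    show f (T y) = f (R (M0 (A y)))
    rw [hT y]
    intro g
    show d g * (A y) g = d g * η g y
    by_cases hg : 0 < w g
    · rw [hAy y g hg]
    · rw [hwd g hg]
      simp
  refine iInf_le_of_le Γ (iInf_le_of_le ⊤ (iInf_le_of_le (dm w) (iInf_le_of_le hprob
    (iInf_le_of_le A (iInf_le_of_le B (iInf_le_of_le hfac ?_))))))
  refine ENNReal.ofReal_le_ofReal ?_
  calc ‖A‖ * ‖B‖ ≤ 1 * Z ^ (1 / p) := by gcongr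
    _ = Z ^ (1 / p) := one_mul _

end Pool.Agent.Helper77.BAP
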